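import Pool.Agent.N931.PN.StmF
import Pool.Agent.H389R2.NS.Pair2

/-!
PN/BW (project PN of helper931): spectral weight of the sets which meet `B`. By helper56.
-/

set_option autoImplicit false

namespace Pool.Agent.N56.PN.BW

open H974 H12S H389NS Finset

theorem wal_zero {S T : Finset Edg} {b : Edg} (hT : T ⊆ S) (hb : b ∈ T) (G : Finset Edg → ℝ)
    (hG : ∀ F, G (insert b F) = G F) : wal S G T = 0 := by
  have h1 := (A6_wal_insert (S := S.erase b) (T := T.erase b) (Finset.notMem_erase b S)
    (Finset.erase_subset_erase b hT) G).2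
  rw [Finset.insert_erase hb, Finset.insert_erase (hT hb)] at h1
  rw [h1]
  have h2 : (fun F => G (insert b F)) = G := funext hG
  rw [h2]
  ring

theorem wal_sub (S T : Finset Edg) (f g : Finset Edg → ℝ) :
    wal S (fun F => f F - g F) T = wal S f T - wal S g T := by
  unfold wal
  rw [← Ex_sub]
  refine Ex_congr fun F _ => ?_
  ring

theorem main : Pool.Agent.N931.PN.S_BW := by
  intro S B hB f
  set g : Finset Edg → ℝ := fun F => f F - f (F \ B) with hg
  have h1 : ∀ T ∈ S.powerset.filter (fun T => ¬ Disjoint T B), (wal S f T) ^ 2 =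
      (wal S g T) ^ 2 := by
    intro T hT
    obtain ⟨hTS, hTB⟩ := Finset.mem_filter.mp hT
    rw [Finset.not_disjoint_iff] at hTB
    obtain ⟨b, hbT, hbB⟩ := hTB
    have h2 : wal S (fun F => f (F \ B)) T = 0 := by
      refine wal_zero (Finset.mem_powerset.mp hTS) hbT _ fun F => ?_
      rw [Finset.insert_sdiff_of_mem _ hbB]
    rw [hg, wal_sub, h2, sub_zero]
  have h3 : ∑ T ∈ S.powerset, (wal S g T) ^ 2 = Ex hp S (fun F => (g F) ^ 2) := by
    have h4 := E2_wal (fun _ => (1 : ℝ)) S g g
    rw [A7.E2_one (fun _ _ => rfl)] at h4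
    have h5 : Ex hp S (fun F => (g F) ^ 2) = Ex hp S (fun F => g F * g F) :=
      Ex_congr fun F _ => pow_two _
    rw [h5, h4]
    refine Finset.sum_congr rfl fun T _ => ?_
    simp [pow_two]
  calc ∑ T ∈ S.powerset.filter (fun T => ¬ Disjoint T B), (wal S f T) ^ 2
      = ∑ T ∈ S.powerset.filter (fun T => ¬ Disjoint T B), (wal S g T) ^ 2 :=
        Finset.sum_congr rfl h1
    _ ≤ ∑ T ∈ S.powerset, (wal S g T) ^ 2 :=
        Finset.sum_le_sum_of_subset_of_nonneg (Finset.filter_subset _ _)
          (fun _ _ _ => sq_nonneg _)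
    _ = _ := h3

end Pool.Agent.N56.PN.BW
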