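import Pool.Agent.N931.PN.Stm
import Pool.Agent.N839.EW.PL

/-!
PN/BLK (project PN of helper931): the effect of closing the edges of `B` on a Lipschitz function
of the path. By helper56.
-/

set_option autoImplicit false

namespace Pool.Agent.N56.PN.BLK

open H974 H12S H389NS H984N H984P H342P Finset
open Pool.Agent.N116.EW Pool.Agent.N931.PN
open H342L (cdist Curve)

theorem main : Pool.Agent.N931.PN.S_BLK := by
  intro R δ hδ hD f hf hf1 B F hF ρ K hρ
  set d : ℝ := f ⟨R.curve δ F⟩ - f ⟨R.curve δ (F \ B)⟩ with hd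
  have hd2 : d ^ 2 ≤ 4 := by
    have h1 := abs_le.mp (hf1 ⟨R.curve δ F⟩)
    have h2 := abs_le.mp (hf1 ⟨R.curve δ (F \ B)⟩)
    have h3 : -2 ≤ d := by rw [hd]; linarith [h1.1, h2.2]
    have h4 : d ≤ 2 := by rw [hd]; linarith [h1.2, h2.1]
    nlinarith
  have key : ∀ r : ℕ, 1 ≤ r → ¬ LG (R.dm δ) B r F → d ^ 2 ≤ (13 * δ * r) ^ 2 := by
    intro r hr hL
    have h1 := close Pool.Agent.N839.EW.plIso R hδ hD (Finset.sdiff_subset (s := F) (t := B)) hF hr
      (fun h => hL (Or.inl h)) (fun h => hL (Or.inr h))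
    have h2 : |d| ≤ δ * (4 * r + 9) := by
      refine le_trans (hf _ _) ?_
      rw [dist_comm]
      exact h1
    have h3 : (1 : ℝ) ≤ r := by exact_mod_cast hr
    have h4 : δ * (4 * r + 9) ≤ 13 * δ * r := by nlinarith
    rw [← sq_abs]
    exact pow_le_pow_left₀ (abs_nonneg _) (h2.trans h4) 2
  have hind : ∀ p : Prop, 0 ≤ ind p := fun p => ind_nonneg p
  induction K with
  | zero =>
    rw [Finset.sum_range_zero, add_zero, pow_zero, one_mul]
    by_cases hL : LG (R.dm δ) B ρ F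
    · rw [ind_of hL]
      nlinarith [sq_nonneg (13 * δ * ρ)]
    · rw [ind_not_of hL]
      linarith [key ρ hρ hL]
  | succ K ih =>
    rw [Finset.sum_range_succ]
    have hS : 0 ≤ ∑ k ∈ Finset.range K, (26 * δ * 2 ^ k * ρ) ^ 2 *
        ind (LG (R.dm δ) B (2 ^ k * ρ) F) :=
      Finset.sum_nonneg fun k _ => mul_nonneg (sq_nonneg _) (hind _)
    have hT : 0 ≤ (26 * δ * 2 ^ K * ρ) ^ 2 * ind (LG (R.dm δ) B (2 ^ K * ρ) F) :=
      mul_nonneg (sq_nonneg _) (hind _)
    by_cases hL : LG (R.dm δ) B (2 ^ (K + 1) * ρ) F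
    · rw [ind_of hL]
      nlinarith [sq_nonneg (13 * δ * ρ)]
    · rw [ind_not_of hL]
      by_cases hL2 : LG (R.dm δ) B (2 ^ K * ρ) F
      · rw [ind_of hL2]
        have h1 := key (2 ^ (K + 1) * ρ)
          (Nat.one_le_iff_ne_zero.mpr (Nat.mul_ne_zero (by positivity) (by omega))) hL
        have h2 : (13 * δ * ((2 ^ (K + 1) * ρ : ℕ) : ℝ)) ^ 2 = (26 * δ * 2 ^ K * ρ) ^ 2 := by
          push_cast
          ring
        rw [h2] at h1
        nlinarith [sq_nonneg (13 * δ * ρ)]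
      · rw [ind_not_of hL2] at ih
        linarith

end Pool.Agent.N56.PN.BLK
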