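import Pool.Agent.N931.PN.StmF
import Pool.Agent.H389R2.NS.Pair3

/-!
PN/DER (project PN of helper931): derivative in the correlation. By helper56.
-/

set_option autoImplicit false

namespace Pool.Agent.N56.PN.DER

open H974 H12S H389NS Finset

theorem De_le' {ρ : Edg → ℝ} {S : Finset Edg} {e : Edg} (he : e ∈ S)
    (hρ : ∀ e ∈ S, 0 ≤ ρ e ∧ ρ e ≤ 1) (f : Finset Edg → ℝ) :
    P3x.De ρ S f e ≤ E2 ρ S (fun F F' => |dif e f F| * |dif e f F'|) / 4 := by
  have h0 : e ∉ S.erase e := notMem_erase e S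
  unfold P3x.De
  rw [P3x.E2_eq]
  have h1 : ∀ F F' : Finset Edg, ∏ e' ∈ S, (1 + ρ e' * P3x.sg F F' e') / 4 =
      (∏ e' ∈ S.erase e, (1 + ρ e' * P3x.sg F F' e') / 4) * ((1 + ρ e * P3x.sg F F' e) / 4) :=
    fun F F' => (prod_erase_mul S _ he).symm
  simp only [h1]
  have h2 := P3x.four h0 (fun e' s => (1 + ρ e' * s) / 4) (fun s => s / 4)
    (fun F F' => f F * f F')
  have h3 := P3x.four h0 (fun e' s => (1 + ρ e' * s) / 4) (fun s => (1 + ρ e * s) / 4)
    (fun F F' => |dif e f F| * |dif e f F'|)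
  rw [insert_erase he] at h2 h3
  rw [h2, h3, Finset.sum_div]
  refine sum_le_sum fun F hF => ?_
  rw [Finset.sum_div]
  refine sum_le_sum fun F' hF' => ?_
  have hF1 : e ∉ F := fun h => h0 (mem_powerset.1 hF h)
  have hF2 : e ∉ F' := fun h => h0 (mem_powerset.1 hF' h)
  rw [mul_div_assoc]
  refine mul_le_mul_of_nonneg_left ?_ ?_
  · simp only [dif, insert_idem, erase_insert_eq_erase, erase_eq_of_notMem hF1,
      erase_eq_of_notMem hF2]
    set a := f F
    set b := f (insert e F)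
    set c := f F'
    set d := f (insert e F')
    have k2 : (b - a) * (d - c) ≤ |b - a| * |d - c| := by
      rw [← abs_mul]; exact le_abs_self _
    nlinarith
  · refine prod_nonneg fun e' he' => ?_
    have h4 := hρ e' (mem_of_mem_erase he')
    rcases P3x.sg_or F F' e' with h5 | h5 <;> rw [h5]
    · linarith [h4.1]
    · linarith [h4.2]

theorem main : Pool.Agent.N931.PN.S_DER := by
  classical
  intro S N P hN hP hNP f x hx hx1
  set ρ₀ : Edg → ℝ := fun e => if e ∈ P then 0 else 1 with hρ₀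
  have hmix : ∀ y : ℝ, (fun e' => if e' ∈ N then y else if e' ∈ P then 0 else 1) =
      P3x.mix N ρ₀ y := by
    intro y
    funext e'
    rfl
  have hmix01 : ∀ y : ℝ, 0 ≤ y → y ≤ 1 → ∀ e, 0 ≤ P3x.mix N ρ₀ y e ∧ P3x.mix N ρ₀ y e ≤ 1 := by
    intro y hy hy1 e
    simp only [P3x.mix, hρ₀]
    split_ifs
    · exact ⟨hy, hy1⟩
    · exact ⟨le_rfl, zero_le_one⟩
    · exact ⟨zero_le_one, le_rfl⟩
  have h1 : ∫ y in (0:ℝ)..x, ∑ e ∈ N, P3x.De (P3x.mix N ρ₀ y) S f e =
      E2 (P3x.mix N ρ₀ x) S (fun F F' => f F * f F') -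
        E2 (P3x.mix N ρ₀ 0) S (fun F F' => f F * f F') := by
    refine intervalIntegral.integral_eq_sub_of_hasDerivAt
      (fun y _ => P3x.hasDeriv hN f y) ?_
    exact (continuous_finsetSum _ fun e _ => P3x.cont' ρ₀ S N _ e).intervalIntegrable _ _
  have h2 : ∑ e ∈ N, ∫ y in (0:ℝ)..x, P3x.De (P3x.mix N ρ₀ y) S f e =
      ∫ y in (0:ℝ)..x, ∑ e ∈ N, P3x.De (P3x.mix N ρ₀ y) S f e := by
    rw [intervalIntegral.integral_finsetSum]
    intro e _
    exact (P3x.cont' ρ₀ S N _ e).intervalIntegrable _ _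
  have h3 : ∑ e ∈ N, ∫ y in (0:ℝ)..x, P3x.De (P3x.mix N ρ₀ y) S f e ≤
      ∑ e ∈ N, ∫ y in (0:ℝ)..x,
        E2 (P3x.mix N ρ₀ y) S (fun F F' => |dif e f F| * |dif e f F'|) / 4 := by
    refine sum_le_sum fun e he => ?_
    refine intervalIntegral.integral_mono_on hx ((P3x.cont' ρ₀ S N _ e).intervalIntegrable _ _)
      (((P3x.cont ρ₀ S N _).div_const 4).intervalIntegrable _ _) fun y hy => ?_
    exact De_le' (hN he) (fun e' _ => hmix01 y hy.1 (hy.2.trans hx1) e') f
  simp only [hmix]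
  refine le_trans ?_ h3
  rw [h2, h1, E2_wal, E2_wal, ← Finset.sum_sub_distrib, Finset.sum_filter]
  refine Finset.sum_le_sum fun T hT => ?_
  rw [← mul_sub, ← pow_two]
  -- the difference of the products
  by_cases hTP : Disjoint T P
  · by_cases hTN : Disjoint T N
    · rw [if_neg (fun h => h.2 hTN)]
      have e1 : ∏ e ∈ T, P3x.mix N ρ₀ x e = ∏ e ∈ T, P3x.mix N ρ₀ 0 e := by
        refine Finset.prod_congr rfl fun e he => ?_
        have : e ∉ N := fun h => Finset.disjoint_left.mp hTN he h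
        simp only [P3x.mix, if_neg this]
      rw [e1, sub_self, mul_zero]
    · rw [if_pos ⟨hTP, hTN⟩]
      obtain ⟨b, hbT, hbN⟩ := Finset.not_disjoint_iff.mp hTN
      have e1 : ∏ e ∈ T, P3x.mix N ρ₀ 0 e = 0 := by
        refine Finset.prod_eq_zero hbT ?_
        simp only [P3x.mix, if_pos hbN]
      rw [e1, sub_zero]
      refine mul_le_mul_of_nonneg_left ?_ (sq_nonneg _)
      rw [← Finset.prod_const]
      refine Finset.prod_le_prod (fun _ _ => hx) fun e he => ?_
      have : e ∉ P := fun h => Finset.disjoint_left.mp hTP he h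
      simp only [P3x.mix, hρ₀, if_neg this]
      split_ifs
      · exact le_rfl
      · exact hx1
  · rw [if_neg (fun h => hTP h.1)]
    obtain ⟨b, hbT, hbP⟩ := Finset.not_disjoint_iff.mp hTP
    have hbN : b ∉ N := fun h => Finset.disjoint_left.mp hNP h hbP
    have e1 : ∀ y : ℝ, ∏ e ∈ T, P3x.mix N ρ₀ y e = 0 := by
      intro y
      refine Finset.prod_eq_zero hbT ?_
      simp only [P3x.mix, hρ₀, if_neg hbN, if_pos hbP]
    rw [e1, e1, sub_self, mul_zero]

end Pool.Agent.N56.PN.DER
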