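import Pool.Agent.N931.PN.StmF

/-!
PN/SQ (project PN of helper931): second moments in two layers. By helper56.
-/

set_option autoImplicit false

namespace Pool.Agent.N56.PN.SQ

open H974 H12S H389NS Finset

theorem wal_sum (S T : Finset Edg) {ι : Type} (s : Finset ι) (f : ι → Finset Edg → ℝ) :
    wal S (fun F => ∑ k ∈ s, f k F) T = ∑ k ∈ s, wal S (f k) T := by
  unfold wal
  rw [← Ex_sum]
  refine Ex_congr fun F _ => ?_
  rw [Finset.mul_sum]

theorem main : Pool.Agent.N931.PN.S_SQ := by
  intro ρ S hρ K a A h ha hh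
  set g : Finset Edg → ℝ := fun F => ∑ k ∈ Finset.range (K + 1), a k * ind (A k F) with hg
  have h1 : E2 ρ S (fun F F' => |h F| * |h F'|) ≤ E2 ρ S (fun F F' => g F * g F') := by
    refine E2_mono hρ fun F F' hF hF' => ?_
    exact mul_le_mul (hh F hF) (hh F' hF') (abs_nonneg _) ((abs_nonneg _).trans (hh F hF))
  refine h1.trans ?_
  rw [E2_wal]
  have h2 : ∀ k, (a k) ^ 2 * P2 ρ S (A k) (A k) =
      ∑ T ∈ S.powerset, (wal S (fun F => a k * ind (A k F)) T) ^ 2 * ∏ e ∈ T, ρ e := by
    intro k
    unfold P2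
    rw [E2_wal, Finset.mul_sum]
    refine Finset.sum_congr rfl fun T _ => ?_
    have : wal S (fun F => a k * ind (A k F)) T = a k * wal S (fun F => ind (A k F)) T := by
      unfold wal
      rw [← Ex_mul_left]
      refine Ex_congr fun F _ => ?_
      ring
    rw [this]
    ring
  simp only [h2]
  rw [Finset.sum_comm, Finset.mul_sum]
  refine Finset.sum_le_sum fun T hT => ?_
  have hT' := Finset.mem_powerset.mp hT
  have h3 : 0 ≤ ∏ e ∈ T, ρ e := Finset.prod_nonneg fun e he => (hρ e (hT' he)).1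
  have h4 : wal S g T = ∑ k ∈ Finset.range (K + 1), wal S (fun F => a k * ind (A k F)) T :=
    wal_sum S T _ _
  have h5 := sq_sum_le_card_mul_sum_sq (s := Finset.range (K + 1))
    (f := fun k => wal S (fun F => a k * ind (A k F)) T)
  rw [Finset.card_range] at h5
  push_cast at h5
  rw [h4, ← Finset.sum_mul, ← mul_assoc, ← pow_two]
  exact mul_le_mul_of_nonneg_right h5 h3

end Pool.Agent.N56.PN.SQ
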